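import Mathlib

/-! The law lemma: in a group of exponent `n`, an infinite subgroup `K` and an element `x ∉ K`,
the points `x` and `1` are joined by walks with `K`-moves and at most `n` `x`-edges which avoid
any given finite set. -/

set_option autoImplicit false

namespace Pool.Agent.Lib.MP_90732c_al.Cx.H32

variable {G : Type*} [Group G]

/-- `a` and `b` are joined by an `x`-edge. -/
def Adj (x a b : G) : Prop := b = x * a ∨ a = x * b

lemma Adj.symm {x a b : G} (h : Adj x a b) : Adj x b a := Or.symm h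

lemma Adj.mul_right {x a b : G} (h : Adj x a b) (t : G) : Adj x (a * t) (b * t) := by
  rcases h with rfl | rfl
  · exact Or.inl (mul_assoc _ _ _)
  · exact Or.inr (mul_assoc _ _ _)

/-- `Arm K x N m g h`: from `g` one arrives at `h` by `m` steps, each of them a `K`-move with
letter outside `N` followed by an `x`-edge. -/
inductive Arm (K : Subgroup G) (x : G) (N : Set G) : ℕ → G → G → Prop
  | nil (g : G) : Arm K x N 0 g g
  | cons (m : ℕ) (g k h c : G) : k ∈ K → k ∉ N → Adj x (k * g) h → Arm K x N m h c →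
      Arm K x N (m + 1) g c

variable {K : Subgroup G} {x : G}

lemma Arm.mono {N N' : Set G} (hN : N' ⊆ N) {m : ℕ} {g h : G} (h1 : Arm K x N m g h) :
    Arm K x N' m g h := by
  induction h1 with
  | nil g => exact Arm.nil g
  | cons m g k h c hk hkN had _ ih => exact Arm.cons m g k h c hk (fun h => hkN (hN h)) had ih

lemma Arm.mul_right {N : Set G} {m : ℕ} {g h : G} (h1 : Arm K x N m g h) (t : G) :
    Arm K x N m (g * t) (h * t) := by
  induction h1 with
  | nil g => exact Arm.nil _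
  | cons m g k h c hk hkN had _ ih =>
    refine Arm.cons m _ k (h * t) _ hk hkN ?_ ih
    have := had.mul_right t
    rwa [mul_assoc] at this

lemma Arm.snoc {N : Set G} {m : ℕ} {g h : G} (h1 : Arm K x N m g h) :
    ∀ (k c : G), k ∈ K → k ∉ N → Adj x (k * h) c → Arm K x N (m + 1) g c := by
  induction h1 with
  | nil g => intro k c hk hkN had; exact Arm.cons 0 g k c c hk hkN had (Arm.nil c)
  | cons m g k h c hk hkN had _ ih =>
    intro k' c' hk' hkN' had'
    exact Arm.cons (m + 1) g k h c' hk hkN had (ih k' c' hk' hkN' had')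

/-- A closed walk, seen from an edge `g — g'` : arms of length `a` and `b` from the two ends,
whose final points are in the same coset. -/
def Cl (K : Subgroup G) (x : G) (N : Set G) (a b : ℕ) : Prop :=
  ∃ g g' h h', Adj x g g' ∧ Arm K x N a g h ∧ Arm K x N b g' h' ∧ h' * h⁻¹ ∈ K

lemma Cl.mono {N N' : Set G} (hN : N' ⊆ N) {a b : ℕ} (h : Cl K x N a b) : Cl K x N' a b := by
  obtain ⟨g, g', h, h', h1, h2, h3, h4⟩ := h
  exact ⟨g, g', h, h', h1, h2.mono hN, h3.mono hN, h4⟩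

lemma Cl.symm {N : Set G} {a b : ℕ} (h : Cl K x N a b) : Cl K x N b a := by
  obtain ⟨g, g', h, h', h1, h2, h3, h4⟩ := h
  refine ⟨g', g, h', h, h1.symm, h3, h2, ?_⟩
  have := K.inv_mem h4
  rwa [mul_inv_rev, inv_inv] at this

lemma Cl.shift {N : Set G} (hs : ∀ k ∉ N, k⁻¹ ∉ N) {a b : ℕ} (h : Cl K x N a (b + 1)) :
    Cl K x N (a + 1) b := by
  obtain ⟨g, g', h, h', h1, h2, h3, h4⟩ := h
  cases h3 with
  | cons _ _ k u _ hk hkN had hu =>
    refine ⟨k * g', u, h, h', had, ?_, hu, h4⟩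
    refine Arm.cons a _ k⁻¹ g h (K.inv_mem hk) (hs k hkN) ?_ h2
    rw [inv_mul_cancel_left]
    exact h1.symm

lemma Cl.shift_many {N : Set G} (hs : ∀ k ∉ N, k⁻¹ ∉ N) : ∀ (c a b : ℕ),
    Cl K x N a (b + c) → Cl K x N (a + c) b
  | 0, _, _, h => h
  | c + 1, a, b, h => by
    have h1 : Cl K x N (a + 1) (b + c) := Cl.shift hs h
    have h2 := Cl.shift_many hs c (a + 1) b h1
    rwa [add_assoc, add_comm 1 c] at h2

lemma Cl.rotate {N : Set G} (hs : ∀ k ∉ N, k⁻¹ ∉ N) {a b a' b' : ℕ} (hab : a + b = a' + b')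
    (h : Cl K x N a b) : Cl K x N a' b' := by
  rcases le_total a a' with h1 | h1
  · obtain ⟨c, rfl⟩ := Nat.exists_eq_add_of_le h1
    have hb : b = b' + c := by omega
    subst hb
    exact Cl.shift_many hs c a b' h
  · obtain ⟨c, rfl⟩ := Nat.exists_eq_add_of_le h1
    have hb : b' = b + c := by omega
    subst hb
    exact (Cl.shift_many hs c b a' h.symm).symm

/-- Two arms of the same length from the same point which end in the same coset. -/
lemma cl_of_two {N N' : Set G} (hN : N ⊆ N') {i : ℕ} {g k h c c' : G} (hk : k ∈ K)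
    (hkN : k ∉ N) (had : Adj x (k * g) h) (h1 : Arm K x N i h c)
    (hN' : ∀ u ∉ N', u * k⁻¹ ∉ N) (h2 : Arm K x N' (i + 1) g c') (hc : c' * c⁻¹ ∈ K) :
    Cl K x N i (i + 1) := by
  cases h2 with
  | cons _ _ k' h' _ hk' hkN' had' hu =>
    refine ⟨h, k * g, c, c', had.symm, h1, ?_, hc⟩
    refine Arm.cons i _ (k' * k⁻¹) h' c' (K.mul_mem hk' (K.inv_mem hk)) (hN' k' hkN') ?_
      (hu.mono hN)
    rwa [mul_assoc, inv_mul_cancel_left]

/-- Long arms avoid a given coset. -/
lemma avoid_one {N : Set G} (hNf : N.Finite) (hs : ∀ k ∉ N, k⁻¹ ∉ N) (i : ℕ)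
    (hcl : ¬ Cl K x N 0 (2 * i + 1)) (g φ : G) :
    ∃ N' : Set G, N'.Finite ∧ ∀ h, Arm K x N' (i + 1) g h → ∀ k ∈ K, k * h ≠ φ := by
  by_cases hex : ∃ c, Arm K x N (i + 1) g c ∧ ∃ k₀ ∈ K, k₀ * c = φ
  · obtain ⟨c, hc, k₀, hk₀, hφ⟩ := hex
    cases hc with
    | cons _ _ k h _ hk hkN had hu =>
      refine ⟨N ∪ (fun u => u * k) '' N, hNf.union (hNf.image _), ?_⟩
      intro c' hc' k₁ hk₁ hφ'
      apply hcl
      have h0 : Cl K x N i (i + 1) := by
        refine cl_of_two (N' := N ∪ (fun u => u * k) '' N) Set.subset_union_left hk hkN had hu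
          ?_ hc' ?_
        · intro u hu' hu''
          apply hu'
          right
          exact ⟨u * k⁻¹, hu'', by simp⟩
        · have h5 : c' * c⁻¹ = k₁⁻¹ * k₀ := by
            rw [eq_inv_mul_iff_mul_eq, ← mul_assoc, hφ', ← hφ, mul_assoc, mul_inv_cancel, mul_one]
          rw [h5]
          exact K.mul_mem (K.inv_mem hk₁) hk₀
      exact Cl.rotate hs (by omega) h0
  · refine ⟨N, hNf, ?_⟩
    intro h hh k hk he
    exact hex ⟨h, hh, k, hk, he⟩

/-- Long arms avoid finitely many cosets. -/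
lemma avoid_all {N : Set G} (hNf : N.Finite) (hs : ∀ k ∉ N, k⁻¹ ∉ N) (m : ℕ)
    (hcl : ∀ i, 2 * i + 1 < m → ¬ Cl K x N 0 (2 * i + 1)) (S Φ : Set G) (hS : S.Finite)
    (hΦ : Φ.Finite) :
    ∃ N' : Set G, N'.Finite ∧ ∀ i, 2 * i + 1 < m → ∀ g ∈ S, ∀ h, Arm K x N' (i + 1) g h →
      ∀ k ∈ K, k * h ∉ Φ := by
  have hone : ∀ i : ℕ, ∀ g φ : G, ∃ N' : Set G, N'.Finite ∧ (2 * i + 1 < m →
      ∀ h, Arm K x N' (i + 1) g h → ∀ k ∈ K, k * h ≠ φ) := by
    intro i g φ
    by_cases hi : 2 * i + 1 < m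
    · obtain ⟨N', h1, h2⟩ := avoid_one hNf hs i (hcl i hi) g φ
      exact ⟨N', h1, fun _ => h2⟩
    · exact ⟨∅, Set.finite_empty, fun h => absurd h hi⟩
  choose F hF1 hF2 using hone
  refine ⟨⋃ i ∈ Set.Iio m, ⋃ g ∈ S, ⋃ φ ∈ Φ, F i g φ,
    (Set.finite_Iio m).biUnion fun i _ => hS.biUnion fun g _ => hΦ.biUnion fun φ _ => hF1 i g φ,
    ?_⟩
  intro i hi g hg h hh k hk hmem
  have hsub : F i g (k * h) ⊆ ⋃ i ∈ Set.Iio m, ⋃ g ∈ S, ⋃ φ ∈ Φ, F i g φ := by
    intro z hz
    simp only [Set.mem_iUnion]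
    exact ⟨i, by simp only [Set.mem_Iio]; omega, g, hg, k * h, hmem, hz⟩
  exact hF2 i g (k * h) hi h (hh.mono hsub) k hk rfl

/-- A walk in functional form: arrival points `p i`, departure points `q i`; the `x`-edges have
their lower ends outside `E`; the cosets of the interior vertices avoid `V`. -/
structure IsWalk (K : Subgroup G) (x : G) (E V : Set G) (m : ℕ) (a b : G) (p q : ℕ → G) :
    Prop where
  left : p 0 = a
  right : q m = b
  turn : ∀ i ≤ m, q i * (p i)⁻¹ ∈ K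
  edge : ∀ i < m, (p (i + 1) = x * q i ∧ q i ∉ E) ∨ (q i = x * p (i + 1) ∧ p (i + 1) ∉ E)
  vert : ∀ i, 0 < i → i < m → ∀ k ∈ K, k * p i ∉ V

lemma IsWalk.reverse {E V : Set G} {m : ℕ} {a b : G} {p q : ℕ → G}
    (h : IsWalk K x E V m a b p q) :
    IsWalk K x E V m b a (fun i => q (m - i)) (fun i => p (m - i)) := by
  refine ⟨?_, ?_, ?_, ?_, ?_⟩
  · simpa using h.right
  · simpa using h.left
  · intro i _
    have h1 := K.inv_mem (h.turn (m - i) (Nat.sub_le _ _))
    rwa [mul_inv_rev, inv_inv] at h1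
  · intro i hi
    have h1 := h.edge (m - (i + 1)) (by omega)
    have h2 : m - (i + 1) + 1 = m - i := by omega
    rw [h2] at h1
    rcases h1 with h1 | h1
    · exact Or.inr h1
    · exact Or.inl h1
  · intro i h1 h2 k hk hmem
    refine h.vert (m - i) (by omega) (by omega) (k * (q (m - i) * (p (m - i))⁻¹))
      (K.mul_mem hk (h.turn (m - i) (Nat.sub_le _ _))) ?_
    simpa [mul_assoc] using hmem

/-- Concatenation. -/
lemma IsWalk.concat {E V : Set G} {m m' : ℕ} {a b b' c : G} {p q p' q' : ℕ → G}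
    (h : IsWalk K x E V m a b p q) (h' : IsWalk K x E V m' b' c p' q') (hb : b' * b⁻¹ ∈ K)
    (hv : 0 < m → 0 < m' → ∀ k ∈ K, k * b ∉ V) :
    IsWalk K x E V (m + m') a c (fun i => if i ≤ m then p i else p' (i - m))
      (fun i => if i < m then q i else q' (i - m)) := by
  refine ⟨?_, ?_, ?_, ?_, ?_⟩
  · simp [h.left]
  · have h1 : ¬ (m + m' < m) := by omega
    simp only [h1, if_false, Nat.add_sub_cancel_left]
    exact h'.right
  · intro i hi
    rcases lt_trichotomy i m with h1 | h1 | h1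
    · simp only [h1, h1.le, if_true]
      exact h.turn i h1.le
    · subst h1
      simp only [le_refl, lt_irrefl, if_true, if_false, Nat.sub_self]
      have h2 := h'.turn 0 (Nat.zero_le _)
      have h3 := h.turn i le_rfl
      have h4 : q' 0 * (p i)⁻¹ = (q' 0 * (p' 0)⁻¹) * (b' * b⁻¹) * (q i * (p i)⁻¹) := by
        rw [h'.left, h.right]; group
      rw [h4]
      exact K.mul_mem (K.mul_mem h2 hb) h3
    · have h2 : ¬ (i ≤ m) := by omega
      have h3 : ¬ (i < m) := by omega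
      simp only [h2, h3, if_false]
      exact h'.turn (i - m) (by omega)
  · intro i hi
    rcases lt_or_ge i m with h1 | h1
    · have h2 : i + 1 ≤ m := h1
      simp only [h1, h2, if_true]
      exact h.edge i h1
    · have h2 : ¬ (i + 1 ≤ m) := by omega
      have h3 : ¬ (i < m) := by omega
      have h4 : i + 1 - m = (i - m) + 1 := by omega
      simp only [h2, h3, if_false, h4]
      exact h'.edge (i - m) (by omega)
  · intro i h1 h2 k hk
    rcases lt_trichotomy i m with h3 | h3 | h3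
    · simp only [h3.le, if_true]
      exact h.vert i h1 h3 k hk
    · subst h3
      simp only [le_refl, if_true]
      intro hmem
      have h5 := h.turn i le_rfl
      rw [h.right] at h5
      have h6 : k * p i = (k * (b * (p i)⁻¹)⁻¹) * b := by group
      rw [h6] at hmem
      exact hv h1 (by omega) _ (K.mul_mem hk (K.inv_mem h5)) hmem
    · have h4 : ¬ (i ≤ m) := by omega
      simp only [h4, if_false]
      exact h'.vert (i - m) (by omega) (by omega) k hk

/-- An arm in functional form. -/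
lemma Arm.functional {N : Set G} {m : ℕ} {g h : G} (h1 : Arm K x N m g h) :
    ∃ p q : ℕ → G, p 0 = g ∧ p m = h ∧ q m = h ∧ (∀ i < m, q i * (p i)⁻¹ ∈ K) ∧
      (∀ i < m, q i * (p i)⁻¹ ∉ N) ∧ (∀ i < m, Adj x (q i) (p (i + 1))) ∧
      ∀ i ≤ m, Arm K x N i g (p i) := by
  induction h1 with
  | nil g => exact ⟨fun _ => g, fun _ => g, rfl, rfl, rfl, by simp, by simp, by simp, by
      intro i hi; obtain rfl : i = 0 := by omega
      exact Arm.nil g⟩
  | cons m g k h c hk hkN had _ ih =>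
    obtain ⟨p, q, h1, h2, h3, h4, h5, h6, h7⟩ := ih
    refine ⟨fun i => if i = 0 then g else p (i - 1), fun i => if i = 0 then k * g else q (i - 1),
      by simp, by simp [h2], by simp [h3], ?_, ?_, ?_, ?_⟩
    · intro i hi
      rcases Nat.eq_zero_or_pos i with h0 | h0
      · subst h0; simpa using hk
      · have : i ≠ 0 := by omega
        simp only [this, if_false]
        exact h4 (i - 1) (by omega)
    · intro i hi
      rcases Nat.eq_zero_or_pos i with h0 | h0
      · subst h0; simpa using hkN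
      · have : i ≠ 0 := by omega
        simp only [this, if_false]
        exact h5 (i - 1) (by omega)
    · intro i hi
      rcases Nat.eq_zero_or_pos i with h0 | h0
      · subst h0; simpa [h1] using had
      · have : i ≠ 0 := by omega
        have h8 : i + 1 ≠ 0 := by omega
        simp only [this, h8, if_false]
        have h9 : i + 1 - 1 = (i - 1) + 1 := by omega
        rw [h9]
        exact h6 (i - 1) (by omega)
    · intro i hi
      rcases Nat.eq_zero_or_pos i with h0 | h0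
      · subst h0; simpa using Arm.nil g
      · obtain ⟨j, rfl⟩ : ∃ j, i = j + 1 := ⟨i - 1, by omega⟩
        simp only [Nat.succ_ne_zero, if_false, Nat.add_sub_cancel]
        exact Arm.cons j g k h (p j) hk hkN had (h7 j (by omega))

/-- An arm as a walk. -/
lemma Arm.isWalk {N Φ : Set G} {m c : ℕ} {g h : G} (hmc : m ≤ c + 1)
    (hgood : ∀ i < c, ∀ u, Arm K x N (i + 1) g u → ∀ k ∈ K, k * u ∉ Φ ∪ (fun z => x * z) '' Φ)
    (hfirst : ∀ k ∉ N, k * g ∉ Φ ∪ (fun z => x * z) '' Φ) (h1 : Arm K x N m g h) :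
    ∃ p q : ℕ → G, IsWalk K x Φ Φ m g h p q := by
  obtain ⟨p, q, h2, h3, h4, h5, h6, h7, h8⟩ := h1.functional
  have hq : ∀ i < m, q i ∉ Φ ∪ (fun z => x * z) '' Φ := by
    intro i hi
    rcases Nat.eq_zero_or_pos i with h0 | h0
    · subst h0
      have := hfirst _ (h6 0 hi)
      rwa [h2, inv_mul_cancel_right] at this
    · obtain ⟨j, rfl⟩ : ∃ j, i = j + 1 := ⟨i - 1, by omega⟩
      have := hgood j (by omega) _ (h8 (j + 1) hi.le) _ (h5 (j + 1) hi)
      rwa [inv_mul_cancel_right] at this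
  refine ⟨p, q, h2, h4, ?_, ?_, ?_⟩
  · intro i hi
    rcases hi.lt_or_eq with h9 | h9
    · exact h5 i h9
    · subst h9
      rw [h4, h3, mul_inv_cancel]
      exact K.one_mem
  · intro i hi
    have h9 := hq i hi
    rcases h7 i hi with h10 | h10
    · exact Or.inl ⟨h10, fun h => h9 (Or.inl h)⟩
    · refine Or.inr ⟨h10, fun h => h9 (Or.inr ⟨_, h, h10.symm⟩)⟩
  · intro i hi1 hi2 k hk hmem
    obtain ⟨j, rfl⟩ : ∃ j, i = j + 1 := ⟨i - 1, by omega⟩
    exact hgood j (by omega) _ (h8 (j + 1) hi2.le) k hk (Or.inl hmem)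

/-- The exponent gives closed walks with `n` edges. -/
lemma cl_of_pow {n : ℕ} (hn : ∀ g : G, g ^ (n + 1) = 1) (N : Set G) (k : G) (hk : k ∈ K)
    (hkN : k ∉ N) : Cl K x N 0 n := by
  have harm : ∀ (m : ℕ) (g : G), Arm K x N m g ((x * k) ^ m * g) := by
    intro m
    induction m with
    | zero => intro g; simpa using Arm.nil (K := K) (x := x) (N := N) g
    | succ m ih =>
      intro g
      refine Arm.cons m g k (x * (k * g)) _ hk hkN (Or.inl rfl) ?_
      have := ih (x * (k * g))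
      have h2 : (x * k) ^ m * (x * (k * g)) = (x * k) ^ (m + 1) * g := by
        rw [pow_succ]; group
      rwa [h2] at this
  refine ⟨1, x * 1, 1, (x * k) ^ n * (x * 1), Or.inl rfl, Arm.nil 1, harm n (x * 1), ?_⟩
  have h1 : (x * k) ^ n * (x * 1) * 1⁻¹ = k⁻¹ := by
    rw [inv_one, mul_one, mul_one, eq_inv_iff_mul_eq_one, mul_assoc, ← pow_succ]
    exact hn (x * k)
  rw [h1]
  exact K.inv_mem hk

lemma exists_not_mem (hK : (K : Set G).Infinite) {N : Set G} (hN : N.Finite) :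
    ∃ k ∈ K, k ∉ N := by
  obtain ⟨k, hk, hkN⟩ := hK.exists_notMem_finite hN
  exact ⟨k, hk, hkN⟩

/-- **Law lemma.** -/
theorem law {n : ℕ} (hn : 0 < n) (hlaw : ∀ g : G, g ^ n = 1) (hK : (K : Set G).Infinite)
    (hx : x ∉ K) :
    ∃ J, 0 < J ∧ J < n ∧ ∀ Φ : Set G, Φ.Finite → ∃ p q : ℕ → G, IsWalk K x Φ Φ J x 1 p q := by
  classical
  obtain ⟨n, rfl⟩ : ∃ n', n = n' + 1 := ⟨n - 1, by omega⟩
  -- the minimal number of edges
  have hex : ∃ j, ∀ N : Set G, N.Finite → Cl K x N 0 j := by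
    refine ⟨n, ?_⟩
    intro N hN
    obtain ⟨k, hk, hkN⟩ := exists_not_mem hK hN
    exact cl_of_pow hlaw N k hk hkN
  have hjspec := Nat.find_spec hex
  have hjmin : ∀ j' < Nat.find hex, ∃ N : Set G, N.Finite ∧ ¬ Cl K x N 0 j' := by
    intro j' hj'
    have := Nat.find_min hex hj'
    push Not at this
    exact this
  have hjn : Nat.find hex ≤ n := by
    apply Nat.find_min' hex
    intro N hN
    obtain ⟨k, hk, hkN⟩ := exists_not_mem hK hN
    exact cl_of_pow hlaw N k hk hkN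
  generalize Nat.find hex = j at hjspec hjmin hjn
  -- not zero
  have hj0 : 0 < j := by
    rcases Nat.eq_zero_or_pos j with h0 | h0
    · exfalso
      subst h0
      obtain ⟨g, g', h, h', h1, h2, h3, h4⟩ := hjspec ∅ Set.finite_empty
      cases h2
      cases h3
      rcases h1 with h1 | h1
      · apply hx
        rwa [h1, mul_inv_cancel_right] at h4
      · apply hx
        have := K.inv_mem h4
        rwa [mul_inv_rev, inv_inv, h1, mul_inv_cancel_right] at this
    · exact h0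
  refine ⟨j, hj0, by omega, ?_⟩
  intro Φ hΦ
  -- the finite set for short closed walks
  choose F hF1 hF2 using hjmin
  set N₀ : Set G := ⋃ i : Set.Iio j, F i.1 i.2 with hN₀
  have hN₀f : N₀.Finite := Set.finite_iUnion fun i => hF1 i.1 i.2
  set N₁ : Set G := N₀ ∪ N₀⁻¹ with hN₁
  have hN₁f : N₁.Finite := hN₀f.union hN₀f.inv
  have hN₁s : ∀ k ∉ N₁, k⁻¹ ∉ N₁ := by
    intro k hk hk'
    apply hk
    rcases hk' with h | h
    · right; simpa using h
    · left; simpa using h
  have hcl : ∀ i, 2 * i + 1 < j → ¬ Cl K x N₁ 0 (2 * i + 1) := by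
    intro i hi h
    refine hF2 (2 * i + 1) hi (h.mono ?_)
    intro z hz
    left
    exact Set.mem_iUnion.2 ⟨⟨2 * i + 1, hi⟩, hz⟩
  set Φ' : Set G := Φ ∪ (fun z => x * z) '' Φ with hΦ'
  have hΦ'f : Φ'.Finite := hΦ.union (hΦ.image _)
  obtain ⟨N₂, hN₂f, hN₂⟩ := avoid_all hN₁f hN₁s j hcl {1, x} Φ' (by simp) hΦ'f
  set N₃ : Set G := N₂ ∪ (Φ' ∪ (fun z => z * x⁻¹) '' Φ') with hN₃
  have hN₃f : N₃.Finite := hN₂f.union (hΦ'f.union (hΦ'f.image _))
  set N : Set G := N₃ ∪ N₃⁻¹ with hN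
  have hNf : N.Finite := hN₃f.union hN₃f.inv
  have hNs : ∀ k ∉ N, k⁻¹ ∉ N := by
    intro k hk hk'
    apply hk
    rcases hk' with h | h
    · right; simpa using h
    · left; simpa using h
  have hN₂N : N₂ ⊆ N := fun z hz => Or.inl (Or.inl hz)
  -- the properties of long arms
  have hgood : ∀ g ∈ ({1, x} : Set G), ∀ i < j / 2, ∀ u, Arm K x N (i + 1) g u → ∀ k ∈ K,
      k * u ∉ Φ ∪ (fun z => x * z) '' Φ := by
    intro g hg i hi u hu k hk
    exact hN₂ i (by omega) g hg u (hu.mono hN₂N) k hk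
  have hfirst1 : ∀ k ∉ N, k * 1 ∉ Φ ∪ (fun z => x * z) '' Φ := by
    intro k hk hmem
    apply hk
    rw [mul_one] at hmem
    exact Or.inl (Or.inr (Or.inl hmem))
  have hfirstx : ∀ k ∉ N, k * x ∉ Φ ∪ (fun z => x * z) '' Φ := by
    intro k hk hmem
    apply hk
    exact Or.inl (Or.inr (Or.inr ⟨k * x, hmem, by simp⟩))
  -- assembly
  have key : ∀ a b : ℕ, a + b = j → a ≤ j / 2 + 1 → b ≤ j / 2 + 1 → ∀ h h' : G,
      Arm K x N a x h → Arm K x N b 1 h' → h' * h⁻¹ ∈ K →
      ∃ p q : ℕ → G, IsWalk K x Φ Φ j x 1 p q := by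
    intro a b hab ha hb h h' h1 h2 h3
    obtain ⟨p, q, hpq⟩ := Arm.isWalk (Φ := Φ) (c := j / 2) ha (hgood x (by simp)) hfirstx h1
    obtain ⟨p', q', hpq'⟩ := Arm.isWalk (Φ := Φ) (c := j / 2) hb (hgood 1 (by simp)) hfirst1 h2
    have h4 := hpq.concat hpq'.reverse h3 ?_
    · rw [hab] at h4
      exact ⟨_, _, h4⟩
    · intro ha0 hb0 k hk hmem
      rcases le_or_gt a (j / 2) with h5 | h5
      · obtain ⟨i, rfl⟩ : ∃ i, a = i + 1 := ⟨a - 1, by omega⟩
        exact hgood x (by simp) i (by omega) h h1 k hk (Or.inl hmem)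
      · obtain ⟨i, rfl⟩ : ∃ i, b = i + 1 := ⟨b - 1, by omega⟩
        have h6 : k * h = (k * (h' * h⁻¹)⁻¹) * h' := by group
        rw [h6] at hmem
        exact hgood 1 (by simp) i (by omega) h' h2 _ (K.mul_mem hk (K.inv_mem h3))
          (Or.inl hmem)
  have hfin : Cl K x N (j / 2) (j - j / 2) := Cl.rotate hNs (by omega) (hjspec N hNf)
  obtain ⟨g, g', h, h', h1, h2, h3, h4⟩ := hfin
  rcases h1 with h1 | h1
  · -- `g' = x * g`
    have e2 := h2.mul_right g⁻¹
    have e3 := h3.mul_right g⁻¹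
    rw [mul_inv_cancel] at e2
    rw [h1, mul_inv_cancel_right] at e3
    refine key (j - j / 2) (j / 2) (by omega) (by omega) (by omega) _ _ e3 e2 ?_
    have := K.inv_mem h4
    have h5 : h * g⁻¹ * (h' * g⁻¹)⁻¹ = (h' * h⁻¹)⁻¹ := by group
    rwa [h5]
  · have e2 := h2.mul_right g'⁻¹
    have e3 := h3.mul_right g'⁻¹
    rw [mul_inv_cancel] at e3
    rw [h1, mul_inv_cancel_right] at e2
    refine key (j / 2) (j - j / 2) (by omega) (by omega) (by omega) _ _ e2 e3 ?_
    have h5 : h' * g'⁻¹ * (h * g'⁻¹)⁻¹ = h' * h⁻¹ := by group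
    rwa [h5]

lemma IsWalk.mono {E V E' V' : Set G} (hE : E' ⊆ E) (hV : V' ⊆ V) {m : ℕ} {a b : G}
    {p q : ℕ → G} (h : IsWalk K x E V m a b p q) : IsWalk K x E' V' m a b p q := by
  refine ⟨h.left, h.right, h.turn, ?_, ?_⟩
  · intro i hi
    rcases h.edge i hi with h1 | h1
    · exact Or.inl ⟨h1.1, fun h2 => h1.2 (hE h2)⟩
    · exact Or.inr ⟨h1.1, fun h2 => h1.2 (hE h2)⟩
  · intro i h1 h2 k hk h3
    exact h.vert i h1 h2 k hk (hV h3)

/-- The points of a walk. -/
def pts (m : ℕ) (p q : ℕ → G) : Set G := (p '' Set.Iic m) ∪ (q '' Set.Iic m)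

lemma pts_finite (m : ℕ) (p q : ℕ → G) : (pts m p q).Finite :=
  ((Set.finite_Iic m).image p).union ((Set.finite_Iic m).image q)

/-- **Law lemma, disjoint walks**: infinitely many walks with `J` edges from `x` to `1`; each of
them avoids the points of the earlier ones (its edges and its interior cosets). -/
theorem law_many {n : ℕ} (hn : 0 < n) (hlaw : ∀ g : G, g ^ n = 1) (hK : (K : Set G).Infinite)
    (hx : x ∉ K) :
    ∃ J, 0 < J ∧ J < n ∧ ∀ Φ : Set G, Φ.Finite → ∃ p q : ℕ → ℕ → G,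
      (∀ r, IsWalk K x Φ Φ J x 1 (p r) (q r)) ∧
      ∀ s r, s < r → IsWalk K x (pts J (p s) (q s)) (pts J (p s) (q s)) J x 1 (p r) (q r) := by
  classical
  obtain ⟨J, hJ0, hJn, hJ⟩ := law hn hlaw hK hx
  refine ⟨J, hJ0, hJn, ?_⟩
  intro Φ hΦ
  obtain ⟨f, hf1, hf2⟩ := exists_seq_of_forall_finset_exists
    (fun w : (ℕ → G) × (ℕ → G) => IsWalk K x Φ Φ J x 1 w.1 w.2)
    (fun v w => IsWalk K x (pts J v.1 v.2) (pts J v.1 v.2) J x 1 w.1 w.2) (by
      intro s _
      have hfin : (Φ ∪ ⋃ w ∈ s, pts J w.1 w.2).Finite :=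
        hΦ.union (s.finite_toSet.biUnion fun w _ => pts_finite J w.1 w.2)
      obtain ⟨p, q, hpq⟩ := hJ _ hfin
      refine ⟨(p, q), hpq.mono Set.subset_union_left Set.subset_union_left, ?_⟩
      intro w hw
      have hsub : pts J w.1 w.2 ⊆ Φ ∪ ⋃ w ∈ s, pts J w.1 w.2 := fun z hz =>
        Or.inr (Set.mem_biUnion hw hz)
      exact hpq.mono hsub hsub)
  exact ⟨fun r => (f r).1, fun r => (f r).2, hf1, fun s r hsr => hf2 s r hsr⟩

/-- The `x`-edges of a walk have their lower ends among its points. -/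
lemma IsWalk.edge' {E V : Set G} {m : ℕ} {a b : G} {p q : ℕ → G}
    (h : IsWalk K x E V m a b p q) : ∀ i < m, ∃ z ∈ pts m p q, z ∉ E ∧
      ((z = q i ∧ p (i + 1) = x * z) ∨ (z = p (i + 1) ∧ q i = x * z)) := by
  intro i hi
  rcases h.edge i hi with h1 | h1
  · exact ⟨q i, Or.inr ⟨i, by simp only [Set.mem_Iic]; omega, rfl⟩, h1.2, Or.inl ⟨rfl, h1.1⟩⟩
  · exact ⟨p (i + 1), Or.inl ⟨i + 1, by simp only [Set.mem_Iic]; omega, rfl⟩, h1.2,
      Or.inr ⟨rfl, h1.1⟩⟩

/-! ### All elements `x` (also `x ∈ K`), walks from `1` to `x` -/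

/-- **PATH**: for every `x` (in `K` or not) there is `J ≤ n` such that, for every finite `F`,
there is a walk from `1` to `x` with `J` `x`-edges, whose edges and interior cosets avoid `F`. -/
theorem path {n : ℕ} (hn : 0 < n) (hlaw : ∀ g : G, g ^ n = 1) (hK : (K : Set G).Infinite)
    (x : G) :
    ∃ J, 0 < J ∧ J ≤ n ∧ ∀ F : Set G, F.Finite → ∃ p q : ℕ → G, IsWalk K x F F J 1 x p q := by
  by_cases hx : x ∈ K
  · refine ⟨1, one_pos, hn, ?_⟩
    intro F hF
    obtain ⟨k, hk, hkF⟩ := exists_not_mem hK hF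
    refine ⟨fun i => if i = 0 then 1 else x * k, fun i => if i = 0 then k else x, ?_⟩
    refine ⟨by simp, by simp, ?_, ?_, ?_⟩
    · intro i hi
      rcases Nat.eq_zero_or_pos i with h0 | h0
      · subst h0; simpa using hk
      · have : i ≠ 0 := by omega
        simp only [this, if_false]
        rw [mul_inv_rev, ← mul_assoc]
        exact K.mul_mem (K.mul_mem hx (K.inv_mem hk)) (K.inv_mem hx)
    · intro i hi
      obtain rfl : i = 0 := by omega
      left
      simpa using hkF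
    · intro i h1 h2
      omega
  · obtain ⟨J, h1, h2, h3⟩ := law hn hlaw hK hx
    refine ⟨J, h1, h2.le, ?_⟩
    intro F hF
    obtain ⟨p, q, hpq⟩ := h3 F hF
    exact ⟨_, _, hpq.reverse⟩

/-- **FAMILY**: infinitely many such walks, each avoiding the points of the earlier ones. -/
theorem family {n : ℕ} (hn : 0 < n) (hlaw : ∀ g : G, g ^ n = 1) (hK : (K : Set G).Infinite)
    (x : G) :
    ∃ J, 0 < J ∧ J ≤ n ∧ ∀ F : Set G, F.Finite → ∃ p q : ℕ → ℕ → G,
      (∀ r, IsWalk K x F F J 1 x (p r) (q r)) ∧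
      ∀ s r, s < r → IsWalk K x (pts J (p s) (q s)) (pts J (p s) (q s)) J 1 x (p r) (q r) := by
  classical
  obtain ⟨J, hJ0, hJn, hJ⟩ := path hn hlaw hK x
  refine ⟨J, hJ0, hJn, ?_⟩
  intro Φ hΦ
  obtain ⟨f, hf1, hf2⟩ := exists_seq_of_forall_finset_exists
    (fun w : (ℕ → G) × (ℕ → G) => IsWalk K x Φ Φ J 1 x w.1 w.2)
    (fun v w => IsWalk K x (pts J v.1 v.2) (pts J v.1 v.2) J 1 x w.1 w.2) (by
      intro s _
      have hfin : (Φ ∪ ⋃ w ∈ s, pts J w.1 w.2).Finite :=
        hΦ.union (s.finite_toSet.biUnion fun w _ => pts_finite J w.1 w.2)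
      obtain ⟨p, q, hpq⟩ := hJ _ hfin
      refine ⟨(p, q), hpq.mono Set.subset_union_left Set.subset_union_left, ?_⟩
      intro w hw
      have hsub : pts J w.1 w.2 ⊆ Φ ∪ ⋃ w ∈ s, pts J w.1 w.2 := fun z hz =>
        Or.inr (Set.mem_biUnion hw hz)
      exact hpq.mono hsub hsub)
  exact ⟨fun r => (f r).1, fun r => (f r).2, hf1, fun s r hsr => hf2 s r hsr⟩

end Pool.Agent.Lib.MP_90732c_al.Cx.H32
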